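import Pool.Agent.helper9.HX.Spec

set_option autoImplicit false

open scoped Classical

namespace Pool.Agent.helper9.HX

open Finset
open Pool.Agent.helper65.HC (V IsEig IsTop lam)
open Pool.Agent.helper9.HQ (Fam Dn E N Le hi c)
open Pool.Agent.helper9

theorem LBV_sum {d : ℕ} (s : Finset ℕ) (hs : ∀ k ∈ s, k < d) (G : ℕ → ℝ) :
    ∑ i ∈ (univ : Finset (Fin d)).filter (fun i => i.val ∈ s), G i.val = ∑ k ∈ s, G k := by
  apply Finset.sum_nbij (fun i : Fin d => i.val)
  · intro i hi
    exact (Finset.mem_filter.1 hi).2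
  · intro i _ j _ h
    exact Fin.ext h
  · intro k hk
    exact ⟨⟨k, hs k hk⟩, by simpa using hk, rfl⟩
  · intro i _
    rfl

theorem LBV_card {d : ℕ} (s : Finset ℕ) (hs : ∀ k ∈ s, k < d) :
    ((univ : Finset (Fin d)).filter (fun i => i.val ∈ s)).card = s.card := by
  apply Finset.card_nbij (fun i : Fin d => i.val)
  · intro i hi
    exact (Finset.mem_filter.1 hi).2
  · intro i _ j _ h
    exact Fin.ext h
  · intro k hk
    exact ⟨⟨k, hs k hk⟩, by simpa using hk, rfl⟩

theorem LBV_pw (μ r : ℕ) (G : ℕ → ℝ) (c1 c2 : ℝ) (h1 : ∀ k, k < μ → G (k + 1) = c1)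
    (h2 : ∀ k, k < r → G (μ + 1 + k) = c2) :
    ∑ k ∈ range (μ + 1 + r), G k = G 0 + μ * c1 + r * c2 := by
  rw [Finset.sum_range_add, Finset.sum_range_succ']
  have e1 : ∑ k ∈ range μ, G (k + 1) = μ * c1 := by
    rw [Finset.sum_congr rfl fun k hk => h1 k (Finset.mem_range.1 hk)]
    simp
  have e2 : ∑ k ∈ range r, G (μ + 1 + k) = r * c2 := by
    rw [Finset.sum_congr rfl fun k hk => h2 k (Finset.mem_range.1 hk)]
    simp
  rw [e1, e2]
  ring

/-- the family -/
noncomputable def LBV_W {d : ℕ} (z : Fin d) (n μ : ℕ) : Fam d :=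
  {∅} ∪ (((univ : Finset (Fin d)).filter (fun i => i.val ∈ range n)).image (fun i => ({i} : Finset (Fin d))) ∪
    ((univ : Finset (Fin d)).filter (fun i => i.val ∈ Icc 1 μ)).image (fun i => ({z, i} : Finset (Fin d))))

theorem LBV_Wsum {d : ℕ} (z : Fin d) (hz : z.val = 0) (n μ : ℕ) (H : Finset (Fin d) → ℝ) :
    ∑ x ∈ LBV_W z n μ, H x = H ∅ +
      (∑ i ∈ (univ : Finset (Fin d)).filter (fun i => i.val ∈ range n), H {i} +
      ∑ i ∈ (univ : Finset (Fin d)).filter (fun i => i.val ∈ Icc 1 μ), H {z, i}) := by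
  have hzi : ∀ i ∈ (univ : Finset (Fin d)).filter (fun i => i.val ∈ Icc 1 μ), z ≠ i := by
    intro i hi h
    have := (Finset.mem_filter.1 hi).2
    rw [← h, hz] at this
    simp at this
  unfold LBV_W
  rw [Finset.sum_union, Finset.sum_union, Finset.sum_singleton, Finset.sum_image, Finset.sum_image]
  · intro i hi j hj h
    have h1 : i ∈ ({z, j} : Finset (Fin d)) := by
      rw [← show ({z, i} : Finset (Fin d)) = {z, j} from h]
      simp
    simp only [Finset.mem_insert, Finset.mem_singleton] at h1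
    rcases h1 with h1 | h1
    · exact absurd h1.symm (hzi i hi)
    · exact h1
  · intro i _ j _ h
    exact Finset.singleton_injective h
  · rw [Finset.disjoint_left]
    intro x hx hx'
    obtain ⟨i, _, rfl⟩ := Finset.mem_image.1 hx
    obtain ⟨j, hj, h⟩ := Finset.mem_image.1 hx'
    have h1 := congrArg Finset.card h
    rw [Finset.card_pair (hzi j hj), Finset.card_singleton] at h1
    omega
  · rw [Finset.disjoint_left]
    intro x hx hx'
    rw [Finset.mem_singleton] at hx
    subst hx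
    rcases Finset.mem_union.1 hx' with h | h
    · obtain ⟨i, _, h⟩ := Finset.mem_image.1 h
      exact Finset.singleton_ne_empty i h
    · obtain ⟨i, _, h⟩ := Finset.mem_image.1 h
      exact Finset.insert_ne_empty _ _ h

theorem LBV_num (n μ X la cc g0 g1 g2 r : ℝ) (hr : r = n - 1 - μ) (hla : la ≠ 0) (hX : la * la = X)
    (h0 : la * g0 = 1 + μ * cc) (h1 : la * g1 = 1 + cc) (h2 : la * g2 = 1) (e1 : n + 2 * μ * cc = X)
    (e2 : X * cc = 2 + (1 + μ) * cc) :
    2 * (g0 + μ * g1 + r * g2 + μ * (cc * (g0 + g1))) =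
      la * (1 + (g0 ^ 2 + μ * g1 ^ 2 + r * g2 ^ 2) + μ * cc ^ 2) := by
  have hS : g0 + μ * g1 + r * g2 = la := by
    apply mul_left_cancel₀ hla
    rw [hX, ← e1, hr]
    have : la * (g0 + μ * g1 + (n - 1 - μ) * g2) = la * g0 + μ * (la * g1) + (n - 1 - μ) * (la * g2) := by ring
    rw [this, h0, h1, h2]
    ring
  have hc : g0 + g1 = la * cc := by
    apply mul_left_cancel₀ hla
    have : la * (la * cc) = (la * la) * cc := by ring
    rw [this, hX, e2, mul_add, h0, h1]
    ring
  have e3 : la * (1 + (g0 ^ 2 + μ * g1 ^ 2 + r * g2 ^ 2) + μ * cc ^ 2) =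
      la + (g0 * (la * g0) + μ * (g1 * (la * g1)) + r * (g2 * (la * g2))) + μ * (cc * (la * cc)) := by ring
  rw [e3, h0, h1, h2, ← hc]
  linear_combination (1 : ℝ) * hS

theorem LBV (hTRN : TRN_stmt) (hN1 : N1_stmt) : LBV_stmt := by
  intro d m n hm hmn hnd hnm
  obtain ⟨μ, hμ⟩ : ∃ μ, m = n + 1 + μ := ⟨m - (n + 1), by omega⟩
  obtain ⟨r, hr⟩ : ∃ r, n = μ + 1 + r := ⟨n - (μ + 1), by omega⟩
  have hd : 0 < d := by omega
  have hn2 : 2 ≤ n := by omega
  have hmd : m ≤ 2 ^ d := by
    have h1 : d < 2 ^ d := Nat.lt_two_pow_self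
    have h2 : d = (d - 1) + 1 := by omega
    have h3 : d - 1 < 2 ^ (d - 1) := Nat.lt_two_pow_self
    have h4 : 2 ^ d = 2 * 2 ^ (d - 1) := by
      conv_lhs => rw [h2]
      rw [pow_succ]; ring
    omega
  have hFG : F (m : ℝ) n = G n μ := by
    have hm' : (m : ℝ) = n + 1 + μ := by rw [hμ]; push_cast; ring
    unfold F G
    rw [hm']
    have e1 : (2 * (n : ℝ) - (n + 1 + μ)) ^ 2 + 16 * (n + 1 + μ - 1 - n) = (n - 1 - μ) ^ 2 + 16 * μ := by ring
    rw [e1]
    ring
  rw [hFG]
  obtain ⟨hX1, hX2, hX3, -, -, -⟩ := hN1 n μ (Nat.cast_nonneg μ)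
  generalize G (n : ℝ) μ = X at *
  have hn2' : (2 : ℝ) ≤ n := by exact_mod_cast hn2
  have hXp : 0 < X - μ - 1 := by
    rcases Nat.eq_zero_or_pos μ with h | h
    · subst h
      simp only [Nat.cast_zero] at *
      linarith
    · have h1 : (0 : ℝ) < μ := by exact_mod_cast h
      rcases lt_or_eq_of_le (show 0 ≤ X - μ - 1 by linarith) with h2 | h2
      · exact h2
      · rw [← h2] at hX1
        linarith
  have hX0 : 0 < X := by linarith
  have hla : 0 < √X := Real.sqrt_pos.2 hX0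
  have hla2 : √X * √X = X := Real.mul_self_sqrt hX0.le
  generalize √X = la at *
  obtain ⟨cc, hcc⟩ : ∃ cc : ℝ, cc = 2 / (X - μ - 1) := ⟨_, rfl⟩
  have hcc2 : (X - μ - 1) * cc = 2 := by rw [hcc]; field_simp
  have e1 : (n : ℝ) + 2 * μ * cc = X := by
    apply mul_left_cancel₀ hXp.ne'
    linear_combination 2 * μ * hcc2 - hX1
  have e2 : X * cc = 2 + (1 + μ) * cc := by linear_combination hcc2
  obtain ⟨g, hg⟩ : ∃ g : ℕ → ℝ, g = fun k => if k = 0 then (1 + μ * cc) / la else if k ≤ μ then (1 + cc) / la else 1 / la :=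
    ⟨_, rfl⟩
  obtain ⟨f, hf⟩ : ∃ f : Finset (Fin d) → ℝ, f = fun x => if x = ∅ then 1 else if x.card = 1 then ∑ i ∈ x, g i.val else cc :=
    ⟨_, rfl⟩
  have hg0 : g 0 = (1 + μ * cc) / la := by rw [hg]; simp
  have hg1 : ∀ k, k < μ → g (k + 1) = (1 + cc) / la := by
    intro k hk
    rw [hg]
    have : k + 1 ≤ μ := hk
    simp [this]
  have hg2 : ∀ k, k < r → g (μ + 1 + k) = 1 / la := by
    intro k hk
    rw [hg]
    have h1 : ¬ (μ + 1 + k ≤ μ) := by omega
    have h2 : ¬ (μ + 1 + k = 0) := by omega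
    simp only [if_neg h1, if_neg h2]
  have hf0 : f ∅ = 1 := by rw [hf]; simp
  have hf1 : ∀ i : Fin d, f {i} = g i.val := by
    intro i; rw [hf]; simp
  have hf2 : ∀ i j : Fin d, i ≠ j → f {i, j} = cc := by
    intro i j hij
    rw [hf]
    simp only
    rw [if_neg (Finset.insert_ne_empty _ _), if_neg]
    rw [Finset.card_pair hij]; omega
  obtain ⟨z, hz⟩ : ∃ z : Fin d, z.val = 0 := ⟨⟨0, hd⟩, rfl⟩
  have hzi : ∀ i ∈ (univ : Finset (Fin d)).filter (fun i => i.val ∈ Icc 1 μ), z ≠ i := by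
    intro i hi h
    have := (Finset.mem_filter.1 hi).2
    rw [← h, hz] at this
    simp at this
  have hmem1 : ∀ i : Fin d, i.val < n → ({i} : Finset (Fin d)) ∈ LBV_W z n μ := by
    intro i hi
    unfold LBV_W
    apply Finset.mem_union_right
    apply Finset.mem_union_left
    exact Finset.mem_image.2 ⟨i, by simpa using hi, rfl⟩
  have hmem0 : (∅ : Finset (Fin d)) ∈ LBV_W z n μ := by
    unfold LBV_W
    apply Finset.mem_union_left
    simp
  have hs1 : ∀ k ∈ range n, k < d := fun k hk => by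
    have := Finset.mem_range.1 hk; omega
  have hs2 : ∀ k ∈ Icc 1 μ, k < d := fun k hk => by
    have := Finset.mem_Icc.1 hk; omega
  have hcard : (LBV_W z n μ).card ≤ m := by
    unfold LBV_W
    refine (Finset.card_union_le _ _).trans ?_
    have h1 := Finset.card_union_le (((univ : Finset (Fin d)).filter (fun i => i.val ∈ range n)).image (fun i => ({i} : Finset (Fin d))))
      (((univ : Finset (Fin d)).filter (fun i => i.val ∈ Icc 1 μ)).image (fun i => ({z, i} : Finset (Fin d))))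
    have h2 := Finset.card_image_le (s := (univ : Finset (Fin d)).filter (fun i => i.val ∈ range n)) (f := fun i => ({i} : Finset (Fin d)))
    have h3 := Finset.card_image_le (s := (univ : Finset (Fin d)).filter (fun i => i.val ∈ Icc 1 μ)) (f := fun i => ({z, i} : Finset (Fin d)))
    rw [LBV_card _ hs1, Finset.card_range] at h2
    rw [LBV_card _ hs2, Nat.card_Icc] at h3
    rw [Finset.card_singleton]
    omega
  -- the norm
  have hN : N (LBV_W z n μ) f = 1 + (g 0 ^ 2 + μ * ((1 + cc) / la) ^ 2 + r * (1 / la) ^ 2) + μ * cc ^ 2 := by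
    unfold Pool.Agent.helper9.HQ.N
    rw [LBV_Wsum z hz]
    have h1 : ∑ i ∈ (univ : Finset (Fin d)).filter (fun i => i.val ∈ range n), f {i} ^ 2 = ∑ k ∈ range n, g k ^ 2 := by
      rw [← LBV_sum (d := d) (range n) hs1 (fun k => g k ^ 2)]
      apply Finset.sum_congr rfl
      intro i _
      rw [hf1]
    have h2 : ∑ i ∈ (univ : Finset (Fin d)).filter (fun i => i.val ∈ Icc 1 μ), f {z, i} ^ 2 = μ * cc ^ 2 := by
      rw [Finset.sum_congr rfl fun i hi => by rw [hf2 z i (hzi i hi)], Finset.sum_const, LBV_card _ hs2, Nat.card_Icc]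
      simp
    rw [h1, h2, hf0, hr, LBV_pw μ r (fun k => g k ^ 2) (((1 + cc) / la) ^ 2) ((1 / la) ^ 2)
      (fun k hk => by rw [hg1 k hk]) (fun k hk => by rw [hg2 k hk])]
    ring
  have hE : Ef (LBV_W z n μ) f = 2 * (g 0 + μ * ((1 + cc) / la) + r * (1 / la) + μ * (cc * (g 0 + (1 + cc) / la))) := by
    unfold Ef
    rw [LBV_Wsum z hz (n := n) (μ := μ) (H := fun x => ∑ i ∈ x, if x.erase i ∈ LBV_W z n μ then f x * f (x.erase i) else 0)]
    have h1 : ∑ i ∈ (univ : Finset (Fin d)).filter (fun i => i.val ∈ range n),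
        (∑ j ∈ ({i} : Finset (Fin d)), if ({i} : Finset (Fin d)).erase j ∈ LBV_W z n μ then f {i} * f (({i} : Finset (Fin d)).erase j) else 0) =
        ∑ k ∈ range n, g k := by
      rw [← LBV_sum (d := d) (range n) hs1 g]
      apply Finset.sum_congr rfl
      intro i _
      rw [Finset.sum_singleton, show ({i} : Finset (Fin d)).erase i = ∅ by simp, if_pos hmem0, hf1, hf0, mul_one]
    have h2 : ∑ i ∈ (univ : Finset (Fin d)).filter (fun i => i.val ∈ Icc 1 μ),
        (∑ j ∈ ({z, i} : Finset (Fin d)), if ({z, i} : Finset (Fin d)).erase j ∈ LBV_W z n μ then f {z, i} * f (({z, i} : Finset (Fin d)).erase j) else 0) =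
        μ * (cc * (g 0 + (1 + cc) / la)) := by
      have h3 : ∀ i ∈ (univ : Finset (Fin d)).filter (fun i => i.val ∈ Icc 1 μ),
          (∑ j ∈ ({z, i} : Finset (Fin d)), if ({z, i} : Finset (Fin d)).erase j ∈ LBV_W z n μ then f {z, i} * f (({z, i} : Finset (Fin d)).erase j) else 0) =
          cc * (g 0 + (1 + cc) / la) := by
        intro i hi
        have hzi' := hzi i hi
        have hi2 := Finset.mem_Icc.1 (Finset.mem_filter.1 hi).2
        rw [Finset.sum_pair hzi']
        have h4 : ({z, i} : Finset (Fin d)).erase z = {i} := by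
          rw [Finset.erase_insert]
          simpa using hzi'
        have h5 : ({z, i} : Finset (Fin d)).erase i = {z} := by
          rw [Finset.pair_comm, Finset.erase_insert]
          simpa using hzi'.symm
        rw [h4, h5, if_pos (hmem1 i (by omega)), if_pos (hmem1 z (by omega)), hf2 z i hzi', hf1, hf1, hz]
        have h6 : g i.val = (1 + cc) / la := by
          have := hg1 (i.val - 1) (by omega)
          rwa [Nat.sub_add_cancel hi2.1] at this
        rw [h6]
        ring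
      rw [Finset.sum_congr rfl h3, Finset.sum_const, LBV_card _ hs2, Nat.card_Icc]
      simp
    simp only [Finset.sum_empty, zero_add]
    rw [h1, h2, hr, LBV_pw μ r g ((1 + cc) / la) (1 / la) hg1 hg2]
  have hr' : (r : ℝ) = (n : ℝ) - 1 - μ := by rw [hr]; push_cast; ring
  have hkey := LBV_num n μ X la cc (g 0) ((1 + cc) / la) (1 / la) r hr' hla.ne' hla2
    (by rw [hg0]; field_simp) (by field_simp) (by field_simp) e1 e2
  rw [← hN, ← hE] at hkey
  have hNp : 0 < N (LBV_W z n μ) f := by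
    rw [hN]; positivity
  have h5 := hTRN d m (LBV_W z n μ) f hcard hmd
  rw [hkey] at h5
  have h6 : la ≤ lam d m := le_of_mul_le_mul_right h5 hNp
  refine ⟨hla.le.trans h6, ?_⟩
  rw [← hla2]
  nlinarith

end Pool.Agent.helper9.HX
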